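import Pool.Agent.Helper15.FC.St3

set_option autoImplicit false

/-!
# Project FC, module FN1: every `n` with `m ≤ n ≤ q^(δ m)`.
-/

open Polynomial

namespace Pool.Agent.Helper78.FC

open Pool.Agent.Helper15.FC

noncomputable section

theorem one_lt_qr (F : Type) [Field F] [Fintype F] : 1 < qr F := by
  have : 1 < Fintype.card F := Fintype.one_lt_card
  exact_mod_cast this

/-- the divisor function of a nonzero polynomial -/
theorem tau_le {F : Type} [Field F] [Fintype F] {ε B : ℝ} (hε : 0 < ε) (hB : 1 ≤ B)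
    (hT : ∀ f : F[X], f.Monic → ((Dv f).card : ℝ) ≤ B * qr F ^ (ε * f.natDegree))
    {h : F[X]} (h0 : h ≠ 0) {m : ℕ} (hm : h ∈ Lw F m) : tau h ≤ B * qr F ^ (ε * m) := by
  have hq := one_lt_qr F
  have hlc : h.leadingCoeff ≠ 0 := leadingCoeff_ne_zero.2 h0
  have hmon : (h * C (h.leadingCoeff)⁻¹).Monic := monic_mul_leadingCoeff_inv h0
  have hu : IsUnit (C (h.leadingCoeff)⁻¹ : F[X]) := by
    rw [isUnit_C]
    exact (inv_ne_zero hlc).isUnit
  have hDv : Dv h = Dv (h * C (h.leadingCoeff)⁻¹) := by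
    ext d
    rw [mem_Dv h0, mem_Dv hmon.ne_zero, hu.dvd_mul_right]
  have hdeg : (h * C (h.leadingCoeff)⁻¹).natDegree = h.natDegree :=
    natDegree_mul_C (inv_ne_zero hlc)
  unfold tau
  rw [hDv]
  refine le_trans (hT _ hmon) ?_
  rw [hdeg]
  refine mul_le_mul_of_nonneg_left ?_ (by linarith)
  refine Real.rpow_le_rpow_of_exponent_le hq.le ?_
  refine mul_le_mul_of_nonneg_left ?_ hε.le
  have h1 : h.degree < (m : WithBot ℕ) := mem_Lw.1 hm
  rw [degree_eq_natDegree h0] at h1
  have h2 : h.natDegree < m := by exact_mod_cast h1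
  exact_mod_cast h2.le

theorem glue_mem {F : Type} [Field F] [Fintype F] {a b : ℕ} {H h : F[X]}
    (hH : H ∈ Lw F a) (hh : h ∈ Lw F b) : X ^ b * H + h ∈ Lw F (a + b) := by
  rw [mem_Lw, degree_lt_iff_coeff_zero] at *
  intro j hj
  rw [coeff_add, coeff_X_pow_mul', if_pos (by omega), hH (j - b) (by omega),
    hh j (by omega), add_zero]

theorem split_mem {F : Type} [Field F] [Fintype F] {m m0 : ℕ} (hmm : m0 ≤ m) {h : F[X]}
    (hh : h ∈ Lw F m) : ∃ H ∈ Lw F (m - m0), ∃ h1 ∈ Lw F m0, X ^ m0 * H + h1 = h := by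
  have hmon : (X ^ m0 : F[X]).Monic := monic_X_pow m0
  have h1 : h %ₘ (X ^ m0) ∈ Lw F m0 := by
    rw [mem_Lw]
    have := degree_modByMonic_lt h hmon
    rwa [degree_X_pow] at this
  have h2 := modByMonic_add_div h (X ^ m0 : F[X])
  refine ⟨h /ₘ (X ^ m0), ?_, h %ₘ (X ^ m0), h1, by rw [add_comm]; exact h2⟩
  rw [mem_Lw, degree_lt_iff_coeff_zero] at *
  intro j hj
  have h3 := congrArg (fun p : F[X] => p.coeff (j + m0)) h2
  simp only [coeff_add, coeff_X_pow_mul] at h3
  rw [h1 (j + m0) (by omega), hh (j + m0) (by omega), zero_add] at h3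
  exact h3

/-- exponential growth -/
theorem big_n (q δ D : ℝ) (hq : 1 < q) (hδ : 0 < δ) (hD : 0 < D) :
    ∃ n1 : ℕ, ∀ n : ℕ, n1 ≤ n → (n : ℝ) ≤ q ^ (δ * ((n : ℝ) / D - 1)) := by
  have hq0 : 0 < q := by linarith
  have hb : 1 < q ^ (δ / D) := Real.one_lt_rpow hq (by positivity)
  have ht := tendsto_pow_const_div_const_pow_of_one_lt 1 hb
  have hc : 0 < q ^ (-δ) := Real.rpow_pos_of_pos hq0 _
  have hev := ht.eventually (gt_mem_nhds hc)
  obtain ⟨n1, hn1⟩ := Filter.eventually_atTop.1 hev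
  refine ⟨n1, fun n hn => ?_⟩
  have h1 := hn1 n hn
  have hbn : 0 < (q ^ (δ / D)) ^ n := by positivity
  rw [pow_one, div_lt_iff₀ hbn] at h1
  refine h1.le.trans (le_of_eq ?_)
  rw [← Real.rpow_natCast, ← Real.rpow_mul hq0.le, ← Real.rpow_add hq0]
  congr 1
  field_simp
  ring

theorem hFN1 (hFN0 : StFN0) (hTAU : StTAU) : StFN1 := by
  classical
  intro F _ _ k l P P' hk hl hP hP'
  obtain ⟨δ0, C0, hδ0, hC0, h0⟩ := hFN0 F k l P P' hk hl hP hP'
  have hq := one_lt_qr F
  have hq0 : 0 < qr F := by linarith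
  obtain ⟨D, hD⟩ : ∃ D : ℕ, D = 4 * (k + l + 4) := ⟨_, rfl⟩
  have hD24 : 24 ≤ D := by omega
  have hDr : (24 : ℝ) ≤ D := by exact_mod_cast hD24
  have hDpos : (0 : ℝ) < D := by linarith
  have hε : (0 : ℝ) < 1 / (16 * D) := by positivity
  obtain ⟨C1, hC1, hT⟩ := hTAU F (1 / (16 * D)) hε
  obtain ⟨n1, hn1⟩ := big_n (qr F) δ0 D hq hδ0 hDpos
  have hδle : (1 : ℝ) / (16 * D) ≤ 1 / 16 := by
    apply one_div_le_one_div_of_le (by norm_num)
    linarith
  have hmono : ∀ {a b : ℝ}, a ≤ b → qr F ^ a ≤ qr F ^ b := fun h =>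
    Real.rpow_le_rpow_of_exponent_le hq.le h
  have hpos : ∀ a : ℝ, 0 < qr F ^ a := fun a => Real.rpow_pos_of_pos hq0 a
  have hK : 0 ≤ C0 * qr F * (1 + C1) := by positivity
  have hK1 : C0 ≤ C0 * qr F * (1 + C1) := by
    have h1 : 1 ≤ qr F * (1 + C1) := by nlinarith
    calc C0 = C0 * 1 := (mul_one _).symm
      _ ≤ C0 * (qr F * (1 + C1)) := mul_le_mul_of_nonneg_left h1 (by linarith)
      _ = C0 * qr F * (1 + C1) := by ring
  have hK2 : C0 * (1 + C1) ≤ C0 * qr F * (1 + C1) := by
    have h1 : 0 ≤ C0 * (1 + C1) := by positivity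
    nlinarith
  have hN : (0 : ℝ) ≤ qr F ^ n1 := by positivity
  refine ⟨min δ0 (1 / (16 * D)), qr F ^ n1 + C0 * qr F * (1 + C1), lt_min hδ0 hε, ?_, ?_⟩
  · have : 1 ≤ qr F ^ n1 := one_le_pow₀ hq.le
    linarith
  intro n m hmn hnm
  have hδm : min δ0 (1 / (16 * D)) ≤ 1 / (16 * D) := min_le_right _ _
  have hmr : (0 : ℝ) ≤ m := Nat.cast_nonneg m
  by_cases hA : D * m ≤ n
  · -- case A
    obtain ⟨E, hE1, hE2, hE3⟩ := h0 n m 0 (by rw [← hD]; exact hA)
      (hnm.trans (hmono (mul_le_mul_of_nonneg_right (min_le_left _ _) hmr)))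
      (by rw [mem_Lw, degree_zero]; exact WithBot.bot_lt_coe _)
    refine ⟨E, hE1, ?_, ?_⟩
    · refine hE2.trans ?_
      refine mul_le_mul (by linarith) (hmono ?_) (hpos _).le (by linarith)
      refine mul_le_mul_of_nonneg_right ?_ hmr
      linarith
    · intro h hh hhE hh0
      have h1 := hE3 h hh hhE (by rw [mul_zero, zero_add]; exact hh0)
      rw [mul_zero, zero_add] at h1
      refine h1.trans ?_
      have h2 := tau_le hε hC1 hT hh0 hh
      have h3 : qr F ^ ((n : ℝ) - m / 8) * tau h ≤ C1 * qr F ^ ((n : ℝ) - m / 16) := by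
        calc qr F ^ ((n : ℝ) - m / 8) * tau h
            ≤ qr F ^ ((n : ℝ) - m / 8) * (C1 * qr F ^ (1 / (16 * D) * (m : ℝ))) :=
              mul_le_mul_of_nonneg_left h2 (hpos _).le
          _ = C1 * (qr F ^ ((n : ℝ) - m / 8) * qr F ^ (1 / (16 * D) * (m : ℝ))) := by ring
          _ = C1 * qr F ^ ((n : ℝ) - m / 8 + 1 / (16 * D) * (m : ℝ)) := by
              rw [Real.rpow_add hq0]
          _ ≤ C1 * qr F ^ ((n : ℝ) - m / 16) := by
              refine mul_le_mul_of_nonneg_left (hmono ?_) (by linarith)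
              have : 1 / (16 * D) * (m : ℝ) ≤ 1 / 16 * m :=
                mul_le_mul_of_nonneg_right hδle hmr
              linarith
      have h4 : qr F ^ ((n : ℝ) - m / 16) ≤
          qr F ^ ((n : ℝ) - min δ0 (1 / (16 * D)) * m) := by
        refine hmono ?_
        have : min δ0 (1 / (16 * D)) * (m : ℝ) ≤ 1 / 16 * m :=
          mul_le_mul_of_nonneg_right (hδm.trans hδle) hmr
        linarith
      calc C0 * (qr F ^ ((n : ℝ) - m / 16) + qr F ^ ((n : ℝ) - m / 8) * tau h)
          ≤ C0 * (qr F ^ ((n : ℝ) - m / 16) + C1 * qr F ^ ((n : ℝ) - m / 16)) :=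
            mul_le_mul_of_nonneg_left (by linarith) (by linarith)
        _ = (C0 * (1 + C1)) * qr F ^ ((n : ℝ) - m / 16) := by ring
        _ ≤ (qr F ^ n1 + C0 * qr F * (1 + C1)) *
            qr F ^ ((n : ℝ) - min δ0 (1 / (16 * D)) * m) :=
            mul_le_mul (by linarith) h4 (hpos _).le (by linarith)
  · -- case B
    push Not at hA
    by_cases hB : n < n1
    · refine ⟨Lw F m, Finset.Subset.refl _, ?_, ?_⟩
      · rw [card_Lw]
        push_cast
        have h1 : qr F ^ m ≤ qr F ^ n1 * qr F ^ ((1 - min δ0 (1 / (16 * D))) * (m : ℝ)) := by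
          have h2 : qr F ^ m ≤ qr F ^ n1 := pow_le_pow_right₀ hq.le (by omega)
          have h3 : 1 ≤ qr F ^ ((1 - min δ0 (1 / (16 * D))) * (m : ℝ)) := by
            refine Real.one_le_rpow hq.le (mul_nonneg ?_ hmr)
            linarith
          calc qr F ^ m ≤ qr F ^ n1 := h2
            _ = qr F ^ n1 * 1 := (mul_one _).symm
            _ ≤ _ := mul_le_mul_of_nonneg_left h3 hN
        refine h1.trans ?_
        refine mul_le_mul_of_nonneg_right ?_ (hpos _).le
        linarith
      · intro h hh hhE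
        exact absurd hh hhE
    · push Not at hB
      obtain ⟨m0, hm0⟩ : ∃ m0 : ℕ, m0 = n / D := ⟨_, rfl⟩
      have hDm0 : D * m0 ≤ n := by
        rw [hm0]
        exact Nat.mul_div_le n D
      have hm0m : m0 ≤ m := by
        by_contra hcon
        push Not at hcon
        have : D * m ≤ D * m0 := Nat.mul_le_mul_left D hcon.le
        omega
      have hm0n : (n : ℝ) / D - 1 ≤ m0 := by
        have h1 : n < D * (m0 + 1) := by
          rw [hm0]
          have := Nat.lt_mul_div_succ n (show 0 < D by omega)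
          exact this
        have h2 : (n : ℝ) < D * (m0 + 1) := by exact_mod_cast h1
        have h3 : (n : ℝ) / D < m0 + 1 := by
          rw [div_lt_iff₀ hDpos]
          linarith
        linarith
      have hm0m' : (m : ℝ) / D - 1 ≤ m0 := by
        refine le_trans ?_ hm0n
        have : (m : ℝ) / D ≤ n / D :=
          div_le_div_of_nonneg_right (by exact_mod_cast hmn) hDpos.le
        linarith
      have hn2 : (n : ℝ) ≤ qr F ^ (δ0 * m0) :=
        (hn1 n hB).trans (hmono (mul_le_mul_of_nonneg_left hm0n hδ0.le))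
      have hex : ∀ H : F[X], ∃ E : Finset F[X], H ∈ Lw F (n - m0) → E ⊆ Lw F m0 ∧
          (E.card : ℝ) ≤ C0 * qr F ^ ((3 / 4 : ℝ) * m0) ∧
          ∀ h ∈ Lw F m0, h ∉ E → X ^ m0 * H + h ≠ 0 →
            |(Corr F k l n (X ^ m0 * H + h) : ℝ) - Mt P P' n (X ^ m0 * H + h)| ≤
            C0 * (qr F ^ ((n : ℝ) - m0 / 16) + qr F ^ ((n : ℝ) - m0 / 8) *
              tau (X ^ m0 * H + h)) := by
        intro H
        by_cases hH : H ∈ Lw F (n - m0)
        · obtain ⟨E, h1, h2, h3⟩ := h0 n m0 H (by rw [← hD]; exact hDm0) hn2 hH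
          exact ⟨E, fun _ => ⟨h1, h2, h3⟩⟩
        · exact ⟨∅, fun h => absurd h hH⟩
      choose Ef hEf using hex
      have hsub : ∀ H ∈ Lw F (m - m0), H ∈ Lw F (n - m0) := by
        intro H hH
        rw [mem_Lw] at *
        refine lt_of_lt_of_le hH ?_
        exact_mod_cast Nat.sub_le_sub_right hmn m0
      refine ⟨(Lw F (m - m0)).biUnion (fun H => (Ef H).image (fun h1 => X ^ m0 * H + h1)),
        ?_, ?_, ?_⟩
      · intro h hh
        rw [Finset.mem_biUnion] at hh
        obtain ⟨H, hH, hh⟩ := hh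
        rw [Finset.mem_image] at hh
        obtain ⟨h1, hh1, rfl⟩ := hh
        have := glue_mem hH ((hEf H (hsub H hH)).1 hh1)
        rwa [Nat.sub_add_cancel hm0m] at this
      · have hcard : (((Lw F (m - m0)).biUnion
            (fun H => (Ef H).image (fun h1 => X ^ m0 * H + h1))).card : ℝ) ≤
            ∑ H ∈ Lw F (m - m0), ((Ef H).card : ℝ) := by
          have h1 : ((Lw F (m - m0)).biUnion
            (fun H => (Ef H).image (fun h1 => X ^ m0 * H + h1))).card ≤
            ∑ H ∈ Lw F (m - m0), (Ef H).card :=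
            Finset.card_biUnion_le.trans (Finset.sum_le_sum fun H _ => Finset.card_image_le)
          exact_mod_cast h1
        have hsum : ∑ H ∈ Lw F (m - m0), ((Ef H).card : ℝ) ≤
            qr F ^ (m - m0) * (C0 * qr F ^ ((3 / 4 : ℝ) * m0)) := by
          calc ∑ H ∈ Lw F (m - m0), ((Ef H).card : ℝ)
              ≤ ∑ H ∈ Lw F (m - m0), (C0 * qr F ^ ((3 / 4 : ℝ) * m0)) :=
                Finset.sum_le_sum fun H hH => (hEf H (hsub H hH)).2.1
            _ = qr F ^ (m - m0) * (C0 * qr F ^ ((3 / 4 : ℝ) * m0)) := by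
                rw [Finset.sum_const, card_Lw, nsmul_eq_mul]
                push_cast
                rfl
        refine hcard.trans (hsum.trans ?_)
        have h1 : qr F ^ (m - m0) = qr F ^ ((m : ℝ) - m0) := by
          rw [← Real.rpow_natCast, Nat.cast_sub hm0m]
        rw [h1]
        calc qr F ^ ((m : ℝ) - m0) * (C0 * qr F ^ ((3 / 4 : ℝ) * m0))
            = C0 * (qr F ^ ((m : ℝ) - m0) * qr F ^ ((3 / 4 : ℝ) * m0)) := by ring
          _ = C0 * qr F ^ ((m : ℝ) - m0 + (3 / 4 : ℝ) * m0) := by rw [Real.rpow_add hq0]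
          _ ≤ C0 * qr F ^ (1 + (1 - min δ0 (1 / (16 * D))) * (m : ℝ)) := by
              refine mul_le_mul_of_nonneg_left (hmono ?_) (by linarith)
              have e1 : min δ0 (1 / (16 * D)) * (m : ℝ) ≤ 1 / (16 * D) * m :=
                mul_le_mul_of_nonneg_right hδm hmr
              have e2 : 1 / (16 * (D : ℝ)) * m ≤ (m / D) / 4 := by
                have : 1 / (16 * (D : ℝ)) * m = (m / D) / 16 := by field_simp
                rw [this]
                have : (0 : ℝ) ≤ m / D := by positivity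
                linarith
              linarith
          _ = C0 * qr F * qr F ^ ((1 - min δ0 (1 / (16 * D))) * (m : ℝ)) := by
              rw [Real.rpow_add hq0, Real.rpow_one]
              ring
          _ ≤ (qr F ^ n1 + C0 * qr F * (1 + C1)) *
              qr F ^ ((1 - min δ0 (1 / (16 * D))) * (m : ℝ)) := by
              refine mul_le_mul_of_nonneg_right ?_ (hpos _).le
              have : 0 ≤ C0 * qr F * C1 := by positivity
              nlinarith
      · intro h hh hhE hh0
        obtain ⟨H, hH, h1, hh1, heq⟩ := split_mem hm0m hh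
        have hnot : h1 ∉ Ef H := by
          intro hcon
          apply hhE
          rw [Finset.mem_biUnion]
          exact ⟨H, hH, Finset.mem_image.2 ⟨h1, hcon, heq⟩⟩
        have h2 := (hEf H (hsub H hH)).2.2 h1 hh1 hnot (by rw [heq]; exact hh0)
        rw [heq] at h2
        refine h2.trans ?_
        have ht := tau_le hε hC1 hT hh0 hh
        have e0 : (1 : ℝ) / (16 * (D : ℝ)) * m = (m / D) / 16 := by field_simp
        have e1 : min δ0 (1 / (16 * D)) * (m : ℝ) ≤ (m / D) / 16 := by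
          rw [← e0]
          exact mul_le_mul_of_nonneg_right hδm hmr
        have hmD : (0 : ℝ) ≤ m / D := by positivity
        have h3 : qr F ^ ((n : ℝ) - m0 / 8) * tau h ≤
            C1 * qr F ^ (1 + ((n : ℝ) - min δ0 (1 / (16 * D)) * m)) := by
          calc qr F ^ ((n : ℝ) - m0 / 8) * tau h
              ≤ qr F ^ ((n : ℝ) - m0 / 8) * (C1 * qr F ^ (1 / (16 * D) * (m : ℝ))) :=
                mul_le_mul_of_nonneg_left ht (hpos _).le
            _ = C1 * (qr F ^ ((n : ℝ) - m0 / 8) * qr F ^ (1 / (16 * D) * (m : ℝ))) := by ring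
            _ = C1 * qr F ^ ((n : ℝ) - m0 / 8 + 1 / (16 * D) * (m : ℝ)) := by
                rw [Real.rpow_add hq0]
            _ ≤ C1 * qr F ^ (1 + ((n : ℝ) - min δ0 (1 / (16 * D)) * m)) := by
                refine mul_le_mul_of_nonneg_left (hmono ?_) (by linarith)
                rw [e0]
                linarith
        have h4 : qr F ^ ((n : ℝ) - m0 / 16) ≤
            qr F ^ (1 + ((n : ℝ) - min δ0 (1 / (16 * D)) * m)) := by
          refine hmono ?_
          linarith
        calc C0 * (qr F ^ ((n : ℝ) - m0 / 16) + qr F ^ ((n : ℝ) - m0 / 8) * tau h)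
            ≤ C0 * (qr F ^ (1 + ((n : ℝ) - min δ0 (1 / (16 * D)) * m)) +
              C1 * qr F ^ (1 + ((n : ℝ) - min δ0 (1 / (16 * D)) * m))) :=
              mul_le_mul_of_nonneg_left (by linarith) (by linarith)
          _ = C0 * qr F * (1 + C1) * qr F ^ ((n : ℝ) - min δ0 (1 / (16 * D)) * m) := by
              rw [Real.rpow_add hq0, Real.rpow_one]
              ring
          _ ≤ (qr F ^ n1 + C0 * qr F * (1 + C1)) *
              qr F ^ ((n : ℝ) - min δ0 (1 / (16 * D)) * m) := by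
              refine mul_le_mul_of_nonneg_right ?_ (hpos _).le
              linarith

end

end Pool.Agent.Helper78.FC
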