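import Pool.Agent.Helper15.FC.St1

set_option autoImplicit false

/-!
# Project FC, module GRP: distribution of the classes of the `fa`.
-/

open Polynomial

namespace Pool.Agent.Helper78.FC

open Pool.Agent.Helper15.FC

noncomputable section

theorem cls_mul {F : Type} [Field F] (r : F[X]) (N : ℕ) (f g : F[X]) :
    cls r N (f * g) = cls r N f * cls r N g := by
  unfold cls
  rw [Polynomial.reverse_mul_of_domain, map_mul, map_mul]
  rfl

theorem cls_one {F : Type} [Field F] (r : F[X]) (N : ℕ) : cls r N (1 : F[X]) = 1 := by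
  unfold cls
  have h : (1 : F[X]).reverse = 1 := by
    have := Polynomial.reverse_C (1 : F)
    rwa [map_one] at this
  rw [h, map_one, map_one]
  rfl

theorem cls_pow {F : Type} [Field F] (r : F[X]) (N : ℕ) (f : F[X]) (e : ℕ) :
    cls r N (f ^ e) = cls r N f ^ e := by
  induction e with
  | zero => rw [pow_zero, pow_zero, cls_one]
  | succ e ih => rw [pow_succ, pow_succ, cls_mul, ih]

theorem isUnit_mk {F : Type} [Field F] {r f : F[X]} (h : IsCoprime f r) :
    IsUnit (AdjoinRoot.mk r f) := by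
  obtain ⟨u, v, huv⟩ := h
  refine IsUnit.of_mul_eq_one (AdjoinRoot.mk r u) ?_
  rw [← map_mul, ← map_one (AdjoinRoot.mk r), AdjoinRoot.mk_eq_mk]
  refine ⟨-v, ?_⟩
  linear_combination huv

theorem isUnit_cls {F : Type} [Field F] {r f : F[X]} (N : ℕ) (hf : f.Monic)
    (h : IsCoprime f r) : IsUnit (cls r N f) := by
  rw [Prod.isUnit_iff]
  refine ⟨isUnit_mk h, ?_⟩
  refine isUnit_mk (IsCoprime.pow_right ?_)
  refine ⟨1, -f.reverse.divX, ?_⟩
  have h1 := Polynomial.divX_mul_X_add f.reverse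
  rw [Polynomial.coeff_zero_reverse, hf.leadingCoeff, map_one] at h1
  linear_combination -h1

theorem map_inj {F L : Type} [Field F] [Field L] [Algebra F L] {b : ℕ}
    {M M' : Matrix (Fin b) (Fin b) F}
    (h : M.map (algebraMap F L) = M'.map (algebraMap F L)) : M = M' := by
  ext i j
  have := congrFun (congrFun h i) j
  simpa using this

theorem hGRP (hEXF : StEXF) (hSOL : StSOL) (hPRD : StPRD) (hMAT : StMAT) (hGR0 : StGR0)
    (hGR1 : StGR1) (hSTP : StSTP) : StGRP := by
  intro F _ _ r N hr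
  obtain ⟨b, AA, BB, y0, mt, hcomm, hmt1, hmul, hcls, hinj, hprod⟩ := hMAT F r N hr
  obtain ⟨s1, K, iF, iFin, iAlg, a0, hs1, hcardK, hcls0⟩ := hGR0 F r N hr
  obtain ⟨hdeg, heval, hNm⟩ := hGR1 F K s1 b a0 AA BB hs1 hcardK hcomm
  obtain ⟨hm0, -, hp0⟩ := hPRD F K s1 a0 hs1 hcardK
  -- the value at 0
  have hXX0 : (XXm (Fintype.card F) s1 a0 AA BB).map (fun p => p.eval 0) = 1 := by
    rw [heval]
    have h1 := hprod K s1 (fun i => a0 ^ (Fintype.card F ^ i)) (fa (F := F) s1 a0) hm0 hp0
    rw [← h1, hcls _ 1 hm0 monic_one hcls0, hmt1]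
    exact Matrix.map_one _ (map_zero _) (map_one _)
  obtain ⟨y, hy0, hysys⟩ := hSOL K b (XXm (Fintype.card F) s1 a0 AA BB)
    (fun i => algebraMap F K (y0 i)) hXX0
  have hSys : Sys (Fintype.card K) (XXm (Fintype.card F) s1 a0 AA BB) y := ⟨hysys, hdeg⟩
  -- the finite set G
  let S : Set (Matrix (Fin b) (Fin b) K) :=
    {g | ∃ f : F[X], f.Monic ∧ IsCoprime f r ∧ (mt f).map (algebraMap F K) = g}
  have hSfin : S.Finite := Set.toFinite S
  let G : Finset (Matrix (Fin b) (Fin b) K) := hSfin.toFinset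
  have hG : ∀ g : Matrix (Fin b) (Fin b) K, g ∈ G ↔
      ∃ f : F[X], f.Monic ∧ IsCoprime f r ∧ (mt f).map (algebraMap F K) = g := by
    intro g
    exact hSfin.mem_toFinset
  have hmtpow : ∀ (f : F[X]), f.Monic → ∀ e : ℕ, mt (f ^ e) = mt f ^ e := by
    intro f hf e
    induction e with
    | zero => rw [pow_zero, pow_zero, hmt1]
    | succ e ih => rw [pow_succ, pow_succ, hmul _ _ (hf.pow e) hf, ih]
  have hmtmap : ∀ (M M' : Matrix (Fin b) (Fin b) F), (M * M').map (algebraMap F K) =
      M.map (algebraMap F K) * M'.map (algebraMap F K) := by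
    intro M M'
    exact Matrix.map_mul
  have hord : ∀ c ∈ G, ∃ e : ℕ, 1 ≤ e ∧ c ^ e = 1 := by
    intro c hc
    obtain ⟨f, hf, hfr, rfl⟩ := (hG c).1 hc
    have : Finite (AdjoinRoot r) := finite_AR hr
    have hu : IsUnit (cls r N f) := isUnit_cls N hf hfr
    obtain ⟨u, hu⟩ := hu
    have hfo : IsOfFinOrder u := isOfFinOrder_of_finite u
    obtain ⟨e, he, hue⟩ := isOfFinOrder_iff_pow_eq_one.1 hfo
    refine ⟨e, he, ?_⟩
    have h1 : cls r N (f ^ e) = cls r N 1 := by
      rw [cls_pow, ← hu, cls_one, ← Units.val_pow_eq_pow_val, hue, Units.val_one]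
    have h2 : mt f ^ e = 1 := by
      rw [← hmtpow f hf, hcls _ _ (hf.pow e) monic_one h1, hmt1]
    have h3 : ((mt f).map (algebraMap F K)) ^ e = (mt f ^ e).map (algebraMap F K) := by
      have := map_pow ((algebraMap F K).mapMatrix (m := Fin b)) (mt f) e
      simpa using this.symm
    rw [h3, h2]
    exact Matrix.map_one _ (map_zero _) (map_one _)
  have hclsinj : ∀ f g : F[X], f.Monic → g.Monic → mt f = mt g → cls r N f = cls r N g := by
    intro f g hf hg h
    exact hinj f g hf hg (by rw [h])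
  have hGinj : ∀ c ∈ G, ∀ c' ∈ G, c.mulVec (fun i => PowerSeries.constantCoeff (y i)) =
      c'.mulVec (fun i => PowerSeries.constantCoeff (y i)) → c = c' := by
    intro c hc c' hc' h
    obtain ⟨f, hf, hfr, rfl⟩ := (hG c).1 hc
    obtain ⟨g, hg, hgr, rfl⟩ := (hG c').1 hc'
    have hyy : (fun i => PowerSeries.constantCoeff (y i)) = (algebraMap F K) ∘ y0 := by
      funext i
      exact hy0 i
    rw [hyy] at h
    have h1 : (mt f).mulVec y0 = (mt g).mulVec y0 := by
      funext i
      have h2 := congrFun h i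
      rw [← RingHom.map_mulVec, ← RingHom.map_mulVec] at h2
      exact (algebraMap F K).injective h2
    rw [hcls f g hf hg (hinj f g hf hg h1)]
  obtain ⟨h, H', C, t0, hh, hC, hH'G, hH'c, hH'm, hbd⟩ :=
    hSTP K b (XXm (Fintype.card F) s1 a0 AA BB) y G hSys hord hGinj
  let H : Set (AdjoinRoot r × TN F N) :=
    {c | ∃ f : F[X], f.Monic ∧ IsCoprime f r ∧ cls r N f = c ∧
      (mt f).map (algebraMap F K) ∈ H'}
  refine ⟨s1, h, H, C, max t0 1, hs1, hh, hC, ?_, ?_, ?_, ?_⟩
  · rintro c ⟨f, hf, hfr, hfc, -⟩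
    exact ⟨f, hf, hfr, hfc⟩
  · classical
    let ψ : Matrix (Fin b) (Fin b) K → AdjoinRoot r × TN F N := fun g =>
      if hg : ∃ f : F[X], f.Monic ∧ IsCoprime f r ∧ (mt f).map (algebraMap F K) = g then
        cls r N hg.choose else 0
    have hsub : H ⊆ ψ '' (H' : Set (Matrix (Fin b) (Fin b) K)) := by
      rintro c ⟨f, hf, hfr, hfc, hfH⟩
      refine ⟨(mt f).map (algebraMap F K), hfH, ?_⟩
      have hg : ∃ f' : F[X], f'.Monic ∧ IsCoprime f' r ∧
        (mt f').map (algebraMap F K) = (mt f).map (algebraMap F K) := ⟨f, hf, hfr, rfl⟩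
      change (if hg : ∃ f' : F[X], f'.Monic ∧ IsCoprime f' r ∧
        (mt f').map (algebraMap F K) = (mt f).map (algebraMap F K) then
        cls r N hg.choose else 0) = c
      rw [dif_pos hg, ← hfc]
      obtain ⟨h1, -, h3⟩ := hg.choose_spec
      exact hclsinj _ _ h1 hf (map_inj h3)
    calc H.ncard ≤ (ψ '' (H' : Set (Matrix (Fin b) (Fin b) K))).ncard :=
          Set.ncard_le_ncard hsub (H'.finite_toSet.image ψ)
      _ ≤ (H' : Set (Matrix (Fin b) (Fin b) K)).ncard :=
          Set.ncard_image_le H'.finite_toSet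
      _ = H'.card := Set.ncard_coe_finset H'
      _ ≤ h := hH'c
  · rintro c ⟨f, hf, hfr, hfc, hfH⟩ c' ⟨g, hg, hgr, hgc, hgH⟩
    refine ⟨f * g, hf.mul hg, hfr.mul_left hgr, by rw [cls_mul, hfc, hgc], ?_⟩
    rw [hmul f g hf hg, hmtmap]
    refine hH'm _ hfH _ hgH ?_
    rw [hG]
    exact ⟨f * g, hf.mul hg, hfr.mul_left hgr, by rw [hmul f g hf hg, hmtmap]⟩
  · intro t ht
    have ht0 : t0 ≤ t := le_trans (le_max_left _ _) ht
    have ht1 : 1 ≤ t := le_trans (le_max_right _ _) ht
    obtain ⟨L, iL, iLf, iKL, hcardL⟩ := hEXF K (2 * t) (by omega)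
    let iFL : Algebra F L := ((algebraMap K L).comp (algebraMap F K)).toAlgebra
    have iT : IsScalarTower F K L := IsScalarTower.of_algebraMap_eq (fun _ => rfl)
    have hcL : Fintype.card L = Fintype.card F ^ (2 * s1 * t) := by
      rw [hcardL, hcardK, ← pow_mul]
      congr 1
      ring
    have hs : 1 ≤ 2 * s1 * t := Nat.mul_pos (by omega) (by omega)
    have hkey : ∀ f : F[X], f.Monic → ∀ z : L,
        (NmX (XXm (Fintype.card F) s1 a0 AA BB) (Fintype.card K) z (2 * t) =
          ((mt f).map (algebraMap F K)).map (algebraMap K L) ↔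
        cls r N (fa (F := F) (2 * s1 * t) (algebraMap K L a0 + z)) = cls r N f) := by
      intro f hf z
      obtain ⟨hm, -, hp⟩ := hPRD F L (2 * s1 * t) (algebraMap K L a0 + z) hs hcL
      have h1 := hprod L (2 * s1 * t)
        (fun i => (algebraMap K L a0 + z) ^ (Fintype.card F ^ i)) _ hm hp
      have h2 := hNm L z (2 * t)
      have h3 : s1 * (2 * t) = 2 * s1 * t := by ring
      rw [h3] at h2
      have h4 : ((mt f).map (algebraMap F K)).map (algebraMap K L) =
          (mt f).map (algebraMap F L) := by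
        ext i j
        simp only [Matrix.map_apply]
        exact (IsScalarTower.algebraMap_apply F K L _).symm
      rw [h2, h4, ← h1]
      constructor
      · intro h5
        exact hclsinj _ _ hm hf (map_inj h5)
      · intro h5
        rw [hcls _ _ hm hf h5]
    have hcount : ∀ f : F[X], f.Monic →
        Nat.card {a : L // cls r N (fa (F := F) (2 * s1 * t) a) = cls r N f} =
        Nat.card {z : L // NmX (XXm (Fintype.card F) s1 a0 AA BB) (Fintype.card K) z (2 * t) =
          ((mt f).map (algebraMap F K)).map (algebraMap K L)} := by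
      intro f hf
      refine (Nat.card_congr ?_).symm
      exact (Equiv.addLeft (algebraMap K L a0)).subtypeEquiv (fun z => hkey f hf z)
    have hq1 : (Fintype.card K : ℝ) ^ (2 * t) = (Fintype.card F : ℝ) ^ (2 * s1 * t) := by
      rw [hcardK]
      push_cast
      rw [← pow_mul]
      congr 1
      ring
    have hq2 : (Fintype.card K : ℝ) ^ t = (Fintype.card F : ℝ) ^ (s1 * t) := by
      rw [hcardK]
      push_cast
      rw [← pow_mul]
    obtain ⟨hb1, hb2⟩ := hbd t ht0 L hcardL
    refine ⟨L, iL, iLf, iFL, hcL, ?_, ?_⟩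
    · rintro c ⟨f, hf, hfr, rfl⟩
      rw [hcount f hf]
      have := hb1 _ ((hG _).2 ⟨f, hf, hfr, rfl⟩)
      rw [hq1, hq2] at this
      exact this
    · rintro c ⟨f, hf, hfr, rfl⟩ hcH
      rw [hcount f hf]
      refine hb2 _ ((hG _).2 ⟨f, hf, hfr, rfl⟩) ?_
      intro hmem
      exact hcH ⟨f, hf, hfr, rfl, hmem⟩

end

end Pool.Agent.Helper78.FC
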